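import Pool.Agent.N52.NH.Stm
import Pool.Agent.N303.KQ.FG

/-!
NH52/GEN: generators `g` with `θ(G) ≤ g θ(G) g⁻¹`.
-/

set_option autoImplicit false

namespace Pool.Agent.N169.NH52

open Pool.Agent.N52.NH

theorem fin_sub {G : Type} [Group G] (M : Set G) (x : G) (hx : x ∈ Subgroup.closure M) :
    ∃ F : Finset G, (F : Set G) ⊆ M ∧ x ∈ Subgroup.closure (F : Set G) := by
  classical
  induction hx using Subgroup.closure_induction with
  | mem y hy =>
    refine ⟨{y}, ?_, Subgroup.subset_closure ?_⟩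
    · rw [Finset.coe_singleton, Set.singleton_subset_iff]
      exact hy
    · rw [Finset.coe_singleton]
      exact Set.mem_singleton _
  | one => exact ⟨∅, by simp, one_mem _⟩
  | mul a b _ _ ha hb =>
    obtain ⟨F, hF, haF⟩ := ha
    obtain ⟨F', hF', hbF⟩ := hb
    refine ⟨F ∪ F', ?_, mul_mem (Subgroup.closure_mono ?_ haF) (Subgroup.closure_mono ?_ hbF)⟩
    · rw [Finset.coe_union]
      exact Set.union_subset hF hF'
    · rw [Finset.coe_union]
      exact Set.subset_union_left
    · rw [Finset.coe_union]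
      exact Set.subset_union_right
  | inv a _ ha =>
    obtain ⟨F, hF, haF⟩ := ha
    exact ⟨F, hF, inv_mem haF⟩

theorem main : S_GEN := by
  classical
  intro G _ θ h hT hh hcl
  obtain ⟨k, γ, hγ⟩ := Pool.Agent.N303.KQ.exists_free hT
  have hex : ∀ s : Fin k, ∃ F : Finset G,
      (F : Set G) ⊆ {g : G | ∀ a, ∃ b, θ a = g * θ b * g⁻¹} ∧
        γ (FreeGroup.of s) ∈ Subgroup.closure (F : Set G) :=
    fun s => fin_sub _ _ (by rw [hcl]; exact Subgroup.mem_top _)
  choose Fs hFs hγs using hex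
  obtain ⟨F, hF⟩ : ∃ F : Finset G, F = insert h (Finset.univ.biUnion Fs) := ⟨_, rfl⟩
  have hhF : h ∈ F := by
    rw [hF]
    exact Finset.mem_insert_self _ _
  have hFM : ∀ g ∈ F, ∀ a, ∃ b, θ a = g * θ b * g⁻¹ := by
    intro g hg
    rw [hF, Finset.mem_insert, Finset.mem_biUnion] at hg
    rcases hg with rfl | ⟨s, _, hs⟩
    · exact hh
    · exact hFs s (Finset.mem_coe.2 hs)
  have hle : ∀ s, γ (FreeGroup.of s) ∈ Subgroup.closure (F : Set G) := by
    intro s
    refine Subgroup.closure_mono ?_ (hγs s)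
    intro g hg
    rw [hF]
    exact Finset.mem_coe.2 (Finset.mem_insert_of_mem (Finset.mem_biUnion.2
      ⟨s, Finset.mem_univ s, Finset.mem_coe.1 hg⟩))
  have htop : ∀ x : G, x ∈ Subgroup.closure (F : Set G) := by
    intro x
    obtain ⟨w, rfl⟩ := hγ x
    induction w using FreeGroup.induction_on with
    | C1 => rw [map_one]; exact one_mem _
    | of s => exact hle s
    | inv_of s hs => rw [map_inv]; exact inv_mem hs
    | mul a b ha hb => rw [map_mul]; exact mul_mem ha hb
  refine ⟨F.card, FreeGroup.lift fun t => ((F.equivFin.symm t : F) : G), F.equivFin ⟨h, hhF⟩,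
    ?_, ?_, ?_⟩
  · rw [← MonoidHom.range_eq_top, eq_top_iff]
    intro x _
    refine (Subgroup.closure_le _).2 ?_ (htop x)
    intro g hg
    refine ⟨FreeGroup.of (F.equivFin ⟨g, Finset.mem_coe.1 hg⟩), ?_⟩
    rw [FreeGroup.lift_apply_of, Equiv.symm_apply_apply]
  · rw [FreeGroup.lift_apply_of, Equiv.symm_apply_apply]
  · intro s a
    rw [FreeGroup.lift_apply_of]
    exact hFM _ (F.equivFin.symm s).2 a

end Pool.Agent.N169.NH52
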